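import Pool.Agent.PST.StmtsGE

/-! Squad PST (MP_6a3f1a_al), block GE, row EKF (helper62): the condition `Ekc` holds for `Fod`. -/

set_option autoImplicit false

open scoped BigOperators

noncomputable section

namespace Pool.Agent.PST.H62

open Pool.Agent.PFC (tw IsTv)
open Pool.Agent.PFD.D2 (Cdv FibG)
open Pool.Agent.PFD.D2b (FrR)
open Pool.Agent.PSS

/-- `r ^ ℓ` and `r ^ j (r ^ j')⁻¹` in `W`, `r` not: `j = j'` -/
theorem ekf_inj {ℓ : ℕ} (hℓ : ℓ.Prime) {V : Type} [CommGroup V] {W : Subgroup V} {r : V}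
    (hr : r ∉ W) (hrl : r ^ ℓ ∈ W) {j j' : ℕ} (hj : j < ℓ) (hj' : j' < ℓ)
    (h : (r ^ j)⁻¹ * r ^ j' ∈ W) : j = j' := by
  by_contra hne
  have hcop : IsCoprime ((j' : ℤ) - j) (ℓ : ℤ) := by
    apply IsCoprime.symm
    rw [Int.isCoprime_iff_gcd_eq_one]
    change Nat.gcd ((ℓ : ℤ).natAbs) ((j' : ℤ) - j).natAbs = 1
    rw [Int.natAbs_natCast]
    refine (Nat.Prime.coprime_iff_not_dvd hℓ).2 ?_
    intro hd
    have h1 : ((j' : ℤ) - j).natAbs < ℓ := by omega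
    have h2 : ((j' : ℤ) - j).natAbs ≠ 0 := by omega
    exact h2 (Nat.eq_zero_of_dvd_of_lt hd h1)
  obtain ⟨s, t, hst⟩ := hcop
  apply hr
  have h3 : r ^ ((j' : ℤ) - j) ∈ W := by
    have e : r ^ ((j' : ℤ) - j) = (r ^ j)⁻¹ * r ^ j' := by
      rw [zpow_sub, zpow_natCast, zpow_natCast, mul_comm]
    rw [e]
    exact h
  have h4 : r ^ ((ℓ : ℕ) : ℤ) ∈ W := by
    rw [zpow_natCast]
    exact hrl
  have h5 : r = (r ^ ((j' : ℤ) - j)) ^ s * (r ^ ((ℓ : ℕ) : ℤ)) ^ t := by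
    rw [← zpow_mul, ← zpow_mul, ← zpow_add]
    have e : ((j' : ℤ) - j) * s + (ℓ : ℤ) * t = 1 := by
      rw [← hst]
      ring
    rw [e, zpow_one]
  rw [h5]
  exact W.mul_mem (W.zpow_mem h3 s) (W.zpow_mem h4 t)

theorem ekf : EkfStmt := by
  classical
  intro ℓ hℓp R K F V A A₀ B κ Ω _ _ _ _ _ _ _ _ _ _ _ _ _ _ _ _ _ W cv f α₀ α lam x y b c C g h D
    hV hq hW hF r hr e he
  have hℓ : ℓ.Prime := hℓp.out
  have hℓ0 : (ℓ : K) ≠ 0 := by exact_mod_cast hℓ.ne_zero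
  obtain ⟨a, ha⟩ := hF.gh r
  -- `a` commutes with `W`
  have hvv : ∀ u v : V, α u * α v = α v * α u := by
    intro u v
    rw [← map_mul, ← map_mul, mul_comm]
  have haW : ∀ w ∈ W, α w * a = a * α w := by
    intro w hw
    have h1 := hF.wbl w hw (C.i (α r))
    have h2 : C.i (α w) * g (C.i (α r)) = g (C.i (α r)) * C.i (α w) := by
      have h3 : g (C.i (α w) * C.i (α r)) = C.i (α w) * g (C.i (α r)) := h1.1
      have h4 : g (C.i (α r) * C.i (α w)) = g (C.i (α r)) * C.i (α w) := h1.2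
      rw [← h3, ← h4, ← map_mul C.i, ← map_mul C.i, hvv w r]
    have h5 : C.i (α w) * C.i (α r * h r) = C.i (α r * h r) * C.i (α w) := by
      rw [← map_mul, ← map_mul, mul_assoc, hF.hv, ← mul_assoc, ← mul_assoc, hvv]
    have h6 : (ℓ : K) • (C.i (α w) * C.i a) = (ℓ : K) • (C.i a * C.i (α w)) := by
      have h7 : (ℓ : K) • (C.i (α w) * g (C.i (α r))) =
          (ℓ : K) • (g (C.i (α r)) * C.i (α w)) := by rw [h2]
      rw [← mul_smul_comm, ← smul_mul_assoc, ha, mul_add, add_mul, h5] at h7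
      have h8 := add_left_cancel h7
      rw [mul_smul_comm, smul_mul_assoc] at h8
      exact h8
    have h9 : C.i (α w) * C.i a = C.i a * C.i (α w) := smul_right_injective B hℓ0 h6
    rw [← map_mul, ← map_mul] at h9
    exact C.inj h9
  let s : A := a * α r⁻¹
  have hsW : ∀ w ∈ W, α w * s = s * α w := by
    intro w hw
    change α w * (a * α r⁻¹) = a * α r⁻¹ * α w
    rw [← mul_assoc, haW w hw, mul_assoc, hvv, mul_assoc]
  -- `γ`
  let γ : B := g (C.i (α r)) * C.i (α r⁻¹)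
  have hγ : (ℓ : K) • γ = C.i (h r) + (ℓ : K) • C.i s := by
    change (ℓ : K) • (g (C.i (α r)) * C.i (α r⁻¹)) = C.i (h r) + (ℓ : K) • C.i (a * α r⁻¹)
    rw [← smul_mul_assoc, ha, add_mul, smul_mul_assoc, ← map_mul C.i, ← map_mul C.i, ← hF.hv r r,
      mul_assoc (h r), ← map_mul α, mul_inv_cancel, map_one, mul_one]
  let G : ℕ → B := fun j => g (C.i (α (r ^ j))) * C.i (α (r ^ j)⁻¹)
  have hterm : ∀ j, d1 g (C.i (α (r ^ j))) (C.i (α r)) * C.i (α (r ^ (j + 1))⁻¹) =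
      C.i (α (r ^ j)) * γ * C.i (α (r ^ j)⁻¹) - (G (j + 1) - G j) := by
    intro j
    have e1 : C.i (α (r ^ j)) * C.i (α r) = C.i (α (r ^ (j + 1))) := by
      rw [← map_mul, ← map_mul, pow_succ]
    have e2 : C.i (α (r ^ (j + 1))⁻¹) = C.i (α r⁻¹) * C.i (α (r ^ j)⁻¹) := by
      rw [← map_mul, ← map_mul, pow_succ, mul_inv, mul_comm]
    have e3 : C.i (α r) * C.i (α r⁻¹) = 1 := by
      rw [← map_mul, ← map_mul, mul_inv_cancel, map_one, map_one]
    change (C.i (α (r ^ j)) * g (C.i (α r)) - g (C.i (α (r ^ j)) * C.i (α r)) +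
        g (C.i (α (r ^ j))) * C.i (α r)) * C.i (α (r ^ (j + 1))⁻¹) =
      C.i (α (r ^ j)) * (g (C.i (α r)) * C.i (α r⁻¹)) * C.i (α (r ^ j)⁻¹) -
        (g (C.i (α (r ^ (j + 1)))) * C.i (α (r ^ (j + 1))⁻¹) -
          g (C.i (α (r ^ j))) * C.i (α (r ^ j)⁻¹))
    rw [e1, add_mul, sub_mul]
    have e4 : g (C.i (α (r ^ j))) * C.i (α r) * C.i (α (r ^ (j + 1))⁻¹) =
        g (C.i (α (r ^ j))) * C.i (α (r ^ j)⁻¹) := by
      rw [e2, mul_assoc, ← mul_assoc (C.i (α r)), e3, one_mul]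
    have e5 : C.i (α (r ^ j)) * g (C.i (α r)) * C.i (α (r ^ (j + 1))⁻¹) =
        C.i (α (r ^ j)) * (g (C.i (α r)) * C.i (α r⁻¹)) * C.i (α (r ^ j)⁻¹) := by
      rw [e2]
      simp only [mul_assoc]
    rw [e4, e5]
    abel
  have hG0 : G 0 = 0 := by
    change g (C.i (α (r ^ 0))) * _ = 0
    rw [pow_zero, map_one, map_one, hF.one, zero_mul]
  have hGl : G ℓ = 0 := by
    have h1 := (hF.wbl _ (hW r) 1).1
    rw [mul_one, hF.one, mul_zero] at h1
    change g (C.i (α (r ^ ℓ))) * _ = 0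
    have h2 : g (C.i (α (r ^ ℓ))) = 0 := h1
    rw [h2, zero_mul]
  have hsum : C.i e = ∑ j ∈ Finset.range ℓ, C.i (α (r ^ j)) * γ * C.i (α (r ^ j)⁻¹) := by
    rw [he, Finset.sum_congr rfl (fun j _ => hterm j), Finset.sum_sub_distrib,
      Finset.sum_range_sub, hG0, hGl, sub_self, sub_zero]
  have hcj : ∀ j, C.i (α (r ^ j)) * C.i (h r) * C.i (α (r ^ j)⁻¹) = C.i (h r) := by
    intro j
    rw [← map_mul, ← map_mul, ← hF.hv, mul_assoc, ← map_mul, mul_inv_cancel, map_one, mul_one]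
  have hsum2 : (ℓ : K) • C.i e =
      (ℓ : K) • C.i (h r + ∑ j ∈ Finset.range ℓ, α (r ^ j) * s * α (r ^ j)⁻¹) := by
    rw [hsum, Finset.smul_sum]
    have h1 : ∀ j ∈ Finset.range ℓ, (ℓ : K) • (C.i (α (r ^ j)) * γ * C.i (α (r ^ j)⁻¹)) =
        C.i (h r) + (ℓ : K) • C.i (α (r ^ j) * s * α (r ^ j)⁻¹) := by
      intro j _
      rw [← smul_mul_assoc, ← mul_smul_comm, hγ, mul_add, add_mul, hcj, mul_smul_comm,
        smul_mul_assoc, ← map_mul, ← map_mul]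
    rw [Finset.sum_congr rfl h1, Finset.sum_add_distrib, Finset.sum_const, Finset.card_range,
      map_add, map_sum, smul_add, Finset.smul_sum, ← Nat.cast_smul_eq_nsmul K]
  have he2 : e = h r + ∑ j ∈ Finset.range ℓ, α (r ^ j) * s * α (r ^ j)⁻¹ :=
    C.inj (smul_right_injective B hℓ0 hsum2)
  -- reduce
  have he3 : f.q e - D r = ∑ j ∈ Finset.range ℓ, cw F α₀ (r ^ j) (f.q s) := by
    rw [he2, map_add, hF.hy, add_sub_cancel_left, map_sum]
    refine Finset.sum_congr rfl fun j _ => ?_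
    rw [map_mul, map_mul, hq, hq, mul_assoc]
    rfl
  have hinj : Set.InjOn (fun j : ℕ => r ^ j) (Finset.range ℓ : Set ℕ) := by
    intro j hj j' hj' hjj
    have hj1 := Finset.mem_range.1 (Finset.mem_coe.1 hj)
    have hj2 := Finset.mem_range.1 (Finset.mem_coe.1 hj')
    apply ekf_inj hℓ hr (hW r) hj1 hj2
    have h1 : r ^ j = r ^ j' := hjj
    rw [h1, inv_mul_cancel]
    exact W.one_mem
  have hP' : Subgroup.zpowers (r ^ ℓ) ≤ W := by
    rw [Subgroup.zpowers_le]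
    exact hW r
  rw [he3]
  apply Submodule.subset_span
  refine ⟨Subgroup.zpowers (r ^ ℓ), (Finset.range ℓ).image (fun j : ℕ => r ^ j), f.q s, ?_, ?_, ?_,
    ?_⟩
  · constructor
    · rw [Subgroup.zpowers_le]
      exact Subgroup.pow_mem _ (Subgroup.mem_zpowers r) ℓ
    · intro hle
      exact hr (hP' (hle (Subgroup.mem_zpowers r)))
  · constructor
    · intro t ht
      obtain ⟨j, _, rfl⟩ := Finset.mem_image.1 ht
      exact Subgroup.pow_mem _ (Subgroup.mem_zpowers r) j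
    · intro p hp
      obtain ⟨n, rfl⟩ := Subgroup.mem_zpowers_iff.1 hp
      have hℓz : (0 : ℤ) < ℓ := by exact_mod_cast hℓ.pos
      have hn0 := Int.emod_nonneg n hℓz.ne'
      have hn1 := Int.emod_lt_of_pos n hℓz
      obtain ⟨j, hj⟩ := Int.eq_ofNat_of_zero_le hn0
      have hjl : j < ℓ := by omega
      have hmem : (r ^ j)⁻¹ * r ^ n ∈ Subgroup.zpowers (r ^ ℓ) := by
        rw [Subgroup.mem_zpowers_iff]
        refine ⟨n / ℓ, ?_⟩
        have h1 : n = (j : ℤ) + (ℓ : ℤ) * (n / ℓ) := by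
          rw [← hj]
          exact (Int.emod_add_mul_ediv n ℓ).symm
        calc (r ^ ℓ) ^ (n / (ℓ : ℤ)) = r ^ ((ℓ : ℤ) * (n / ℓ)) := by
              rw [zpow_mul, zpow_natCast]
          _ = (r ^ j)⁻¹ * r ^ ((j : ℤ) + (ℓ : ℤ) * (n / ℓ)) := by
              rw [zpow_add, zpow_natCast, inv_mul_cancel_left]
          _ = (r ^ j)⁻¹ * r ^ n := by rw [← h1]
      refine ⟨r ^ j, ⟨Finset.mem_image.2 ⟨j, Finset.mem_range.2 hjl, rfl⟩, hmem⟩, ?_⟩
      rintro t ⟨ht, ht'⟩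
      obtain ⟨j', hj', rfl⟩ := Finset.mem_image.1 ht
      have hj2 := Finset.mem_range.1 hj'
      have h1 : (r ^ j')⁻¹ * r ^ j ∈ W := by
        have h2 := W.mul_mem (hP' ht') (W.inv_mem (hP' hmem))
        have e : (r ^ j')⁻¹ * r ^ n * ((r ^ j)⁻¹ * r ^ n)⁻¹ = (r ^ j')⁻¹ * r ^ j := by
          rw [mul_inv_rev, inv_inv, mul_assoc, mul_inv_cancel_left]
        rw [e] at h2
        exact h2
      have h3 : j' = j := ekf_inj hℓ hr (hW r) hj2 hjl h1
      rw [h3]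
  · intro w hw
    have hw' := hP' hw
    change α₀ w * (f.q s * α₀ w⁻¹) = f.q s
    have h1 : α₀ w * f.q s = f.q s * α₀ w := by
      rw [← hq, ← map_mul, ← map_mul, hsW w hw']
    rw [← mul_assoc, h1, mul_assoc, ← map_mul, mul_inv_cancel, map_one, mul_one]
  · rw [Finset.sum_image hinj]

end Pool.Agent.PST.H62
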