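import Pool.Agent.PST.StmtsDR

/-! Squad PST (MP_6a3f1a_al), block DR, row YBR (helper62): `Y` is congruent to `X ζ`. -/

set_option autoImplicit false

open scoped BigOperators

noncomputable section

namespace Pool.Agent.PST.H62

open Pool.Agent.PFC (tw IsTv)
open Pool.Agent.PFD.D2b (FrR)
open Pool.Agent.PSS
open Pool.Agent.PSS.S2 (PrD Nh Cn CV)

theorem nh_one {R A Ω : Type} [CommRing R] [Ring A] [Algebra R A] [Fintype Ω] (b : Ω → A)
    (c : Ω → (A →ₗ[R] R)) (h : ∀ a, ∑ ω, c ω a • b ω = a) (a : A) :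
    Nh (fun _ => (1 : R)) b c a = a := by
  unfold Nh
  rw [LinearMap.sum_apply]
  refine Eq.trans (Finset.sum_congr rfl fun ω _ => ?_) (h a)
  rw [LinearMap.smulRight_apply, one_smul]

theorem xe_cv {R V A : Type} [CommRing R] [CommGroup V] [Fintype V] [Ring A] [Algebra R A]
    (α : V →* A) (x : V → R) : CV α (Xe α x) := by
  intro v
  unfold Xe
  rw [Finset.mul_sum, Finset.sum_mul]
  refine Finset.sum_congr rfl fun u _ => ?_
  rw [mul_smul_comm, smul_mul_assoc, ← map_mul, ← map_mul, mul_comm]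

theorem ybr (hDfr : DfrStmt) (hOrb : OrbStmt) (hYqt : YqtStmt) : YbrStmt := by
  classical
  intro F V E A K Ω _ _ _ _ _ _ _ _ _ φ α lam x y b c e S χ xx Q hRF hfr he hst hχ hχ1 hxe hqs hQ
  obtain ⟨d, hd, hD⟩ := hDfr F V E A K Ω φ α lam x y b c hRF hfr (fun ω => ⟨e ω, S ω, hst ω⟩)
  set X : A := Xe α xx with hX
  have hXV : CV α X := xe_cv α xx
  -- the two sums over the orbits of `1 × V`
  have h1 := hYqt F V A K Ω α lam x y b d c (fun ω => χ (e ω)⁻¹) X hRF hfr hD hd
    (fun p ω => by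
      rw [he]) hXV
  have h2 := hYqt F V A K Ω α lam x y b d c (fun _ => 1) 1 hRF hfr hD hd
    (fun p ω => rfl) (fun v => by rw [mul_one, one_mul])
  have h3 : rt x y 1 = ∑ k : Qt (V := V) Ω, b k.rep * d k.rep := by
    unfold rt
    calc ∑ k, x k * 1 * y k = ∑ k, Nh (fun _ => (1 : F)) b c (x k) * (1 * y k) := by
          refine Finset.sum_congr rfl fun k _ => ?_
          rw [nh_one b c hfr.2.2, mul_one, one_mul]
      _ = _ := h2
      _ = _ := by
          refine Finset.sum_congr rfl fun k _ => ?_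
          rw [one_smul, mul_one]
  let g : Ω → A := fun ω => χ (e ω)⁻¹ • (b ω * X * d ω) - X * (b ω * d ω)
  have hg : ∀ (u v : V) (ω : Ω), g ((u, v) • ω) = α u * g ω * α u⁻¹ := by
    intro u v ω
    change χ (e ((u, v) • ω))⁻¹ • (b ((u, v) • ω) * X * d ((u, v) • ω)) -
      X * (b ((u, v) • ω) * d ((u, v) • ω)) =
      α u * (χ (e ω)⁻¹ • (b ω * X * d ω) - X * (b ω * d ω)) * α u⁻¹
    rw [he, hD.eb, hD.ed]
    have e1 : α u * b ω * α v⁻¹ * X * (α v * d ω * α u⁻¹) = α u * (b ω * X * d ω) * α u⁻¹ := by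
      calc α u * b ω * α v⁻¹ * X * (α v * d ω * α u⁻¹)
          = α u * b ω * (α v⁻¹ * X) * (α v * d ω * α u⁻¹) := by simp only [mul_assoc]
        _ = α u * b ω * (X * α v⁻¹) * (α v * d ω * α u⁻¹) := by rw [hXV v⁻¹]
        _ = α u * b ω * X * ((α v⁻¹ * α v) * (d ω * α u⁻¹)) := by simp only [mul_assoc]
        _ = α u * b ω * X * (d ω * α u⁻¹) := by
            rw [← map_mul, inv_mul_cancel, map_one, one_mul]
        _ = α u * (b ω * X * d ω) * α u⁻¹ := by simp only [mul_assoc]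
    have e2 : X * (α u * b ω * α v⁻¹ * (α v * d ω * α u⁻¹)) =
        α u * (X * (b ω * d ω)) * α u⁻¹ := by
      calc X * (α u * b ω * α v⁻¹ * (α v * d ω * α u⁻¹))
          = X * α u * (b ω * ((α v⁻¹ * α v) * (d ω * α u⁻¹))) := by simp only [mul_assoc]
        _ = X * α u * (b ω * (d ω * α u⁻¹)) := by
            rw [← map_mul α v⁻¹ v, inv_mul_cancel, map_one, one_mul]
        _ = α u * X * (b ω * (d ω * α u⁻¹)) := by rw [hXV u]
        _ = α u * (X * (b ω * d ω)) * α u⁻¹ := by simp only [mul_assoc]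
    rw [e1, e2, mul_sub, sub_mul, mul_smul_comm, smul_mul_assoc]
  have hg1 : ∀ (k : Qt (V := V) Ω) (ω : Ω), qmk ω = k → g k.rep = g ω := by
    intro k ω hk
    have h4 : (qmk ω : Qt (V := V) Ω) = qmk k.rep := by rw [hk, Qt.mk_rep]
    obtain ⟨v, hv⟩ := qmk_eq.1 h4
    rw [← hv, hg, map_one, one_mul, inv_one, map_one, mul_one]
  let f : Qt (V := V) Ω → A := fun k => g k.rep
  have hsum : ∑ k, Nh (fun ω => χ (e ω)⁻¹) b c (x k) * (X * y k) - X * rt x y 1 =
      ∑ k, f k := by
    rw [h1, h3, Finset.mul_sum, ← Finset.sum_sub_distrib]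
  rw [hsum]
  -- the action of `Q`
  let fq : Q →* V × V := (MonoidHom.inl V V).comp Q.subtype
  let act : MulAction Q (Qt (V := V) Ω) := MulAction.compHom (Qt (V := V) Ω) fq
  have hact : ∀ (q : Q) (k : Qt (V := V) Ω), q • k = ((q : V), (1 : V)) • k := fun _ _ => rfl
  let ρ : Q →* (A →ₗ[F] A) := (cw F α).comp Q.subtype
  have hf : ∀ (q : Q) (k : Qt (V := V) Ω), f (q • k) = ρ q (f k) := by
    intro q k
    have h5 : (qmk (((q : V), (1 : V)) • k.rep) : Qt (V := V) Ω) = q • k := by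
      rw [hact, ← smul_qmk, Qt.mk_rep]
    change g (q • k).rep = α (q : V) * (g k.rep * α (q : V)⁻¹)
    rw [hg1 _ _ h5, hg, mul_assoc]
  have horb := hOrb F Q (Qt (V := V) Ω) A ρ f hf
  have hBK : BKR ρ ⊤ = BKR (cw F α) Q := by
    have h6 := BKR_range (cw F α) (f := Q.subtype) Q.subtype_injective
    rw [Subgroup.range_subtype] at h6
    exact h6.symm
  rw [hBK] at horb
  have hz : ∀ k : Fp (Qt (V := V) Ω) (⊤ : Subgroup Q), f k.1 = 0 := by
    rintro ⟨k, hk⟩
    change g k.rep = 0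
    set ω := k.rep with hω
    have h7 : ∀ v ∈ Q, ((φ (e ω) v, v) : V × V) • ω = ω := by
      intro v hv
      have h8 : (⟨φ (e ω) v, hQ _ v hv⟩ : Q) • k = k := hk (Subgroup.mem_top _)
      rw [hact] at h8
      have h9 : (qmk ((φ (e ω) v, (1 : V)) • ω) : Qt (V := V) Ω) = qmk ω := by
        rw [← smul_qmk, hω, Qt.mk_rep]
        exact h8
      obtain ⟨v', hv'⟩ := qmk_eq.1 h9
      rw [smul_smul, Prod.mk_mul_mk, one_mul, mul_one] at hv'
      have h10 : ((φ (e ω) v, v') : V × V) ∈ MulAction.stabilizer (V × V) ω := hv'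
      rw [hst ω] at h10
      obtain ⟨s, _, hs⟩ := h10
      have h11 : φ (e ω) s = φ (e ω) v := congrArg Prod.fst hs
      have h12 : s = v' := congrArg Prod.snd hs
      have h13 : s = v := (φ (e ω)).injective h11
      rw [← h12, h13] at hv'
      exact hv'
    have h14 : ∀ v ∈ Q, b ω * α v = α (φ (e ω) v) * b ω := by
      intro v hv
      have h15 := hD.eb (φ (e ω) v) v ω
      rw [h7 v hv] at h15
      calc b ω * α v = α (φ (e ω) v) * b ω * α v⁻¹ * α v := by rw [← h15]
        _ = α (φ (e ω) v) * b ω := by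
            rw [mul_assoc, ← map_mul, inv_mul_cancel, map_one, mul_one]
    have h16 : b ω * X = χ (e ω) • (X * b ω) := by
      rw [hX]
      unfold Xe
      rw [Finset.mul_sum, Finset.sum_mul, Finset.smul_sum]
      calc ∑ v, b ω * xx v • α v
          = ∑ v, (χ (e ω) * xx (φ (e ω) v)) • (α (φ (e ω) v) * b ω) := by
            refine Finset.sum_congr rfl fun v _ => ?_
            rw [hxe]
            by_cases hv : v ∈ Q
            · rw [mul_smul_comm, h14 v hv]
            · rw [hqs v hv, zero_smul, zero_smul, mul_zero]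
        _ = ∑ v, (χ (e ω) * xx v) • (α v * b ω) :=
            Equiv.sum_comp (φ (e ω)).toEquiv (fun v => (χ (e ω) * xx v) • (α v * b ω))
        _ = ∑ v, χ (e ω) • (xx v • α v * b ω) := by
            refine Finset.sum_congr rfl fun v _ => ?_
            rw [smul_mul_assoc, smul_smul]
    change χ (e ω)⁻¹ • (b ω * X * d ω) - X * (b ω * d ω) = 0
    rw [h16, smul_mul_assoc, smul_smul, ← hχ, inv_mul_cancel, hχ1, one_smul, mul_assoc, sub_self]
  rw [Finset.sum_eq_zero (fun k _ => hz k), sub_zero] at horb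
  exact horb

end Pool.Agent.PST.H62
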