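import Pool.Agent.PST.StmtsGV

/-!
# Squad PST, block GV, row ECG (helper62): the chain if all stable subgroups above `T` have regular
elements (edit of the row ECB of helper92)
-/

set_option autoImplicit false

namespace Pool.Agent.PST.GU.H62

open Pool.Agent.PST Pool.Agent.PSS

theorem ecg : EcgStmt := by
  intro ℓ V _ _ E W hl hp hWst hcm hreg
  have key : ∀ n : ℕ, ∀ P : Subgroup V, Nat.card P = n → W ≤ P →
      (∀ a ∈ E, ∀ u ∈ P, a u ∈ P) → ChB ℓ E P W := by
    intro n
    induction n using Nat.strong_induction_on with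
    | _ n ih =>
    intro P hn hP hst
    by_cases hPW : P = W
    · rw [hPW]
      exact ChB.refl W
    obtain ⟨P', ⟨hP0, hPP, hPs⟩, hmax⟩ :=
      (Set.toFinite {Q : Subgroup V | W ≤ Q ∧ Q < P ∧ ∀ a ∈ E, ∀ u ∈ Q, a u ∈ Q}).exists_maximal
        ⟨W, le_refl W, lt_of_le_of_ne hP (Ne.symm hPW), hWst⟩
    have hm : ∀ Q : Subgroup V, (∀ a ∈ E, ∀ u ∈ Q, a u ∈ Q) → P' < Q → Q ≤ P → Q = P := by
      intro Q hQs hQ1 hQ2
      by_contra hne
      have h3 := hmax ⟨hP0.trans hQ1.le, lt_of_le_of_ne hQ2 hne, hQs⟩ hQ1.le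
      exact absurd hQ1 (not_lt_of_ge h3)
    have hcard : Nat.card P' < n := by
      rw [← hn]
      by_contra hcon
      exact hPP.ne (Subgroup.eq_of_le_of_card_ge hPP.le (not_lt.1 hcon))
    refine ChB.step P P' W ⟨hPP.le, hPs, ?_, ?_, ?_, ?_⟩ (ih _ hcard P' rfl hP0 hPs)
    · let R : Subgroup V :=
        { carrier := {v | v ∈ P ∧ v ^ ℓ ∈ P'}
          mul_mem' := by
            rintro v w ⟨hv, hv'⟩ ⟨hw, hw'⟩
            refine ⟨P.mul_mem hv hw, ?_⟩
            rw [mul_pow]
            exact P'.mul_mem hv' hw'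
          one_mem' := ⟨P.one_mem, by rw [one_pow]; exact P'.one_mem⟩
          inv_mem' := by
            rintro v ⟨hv, hv'⟩
            refine ⟨P.inv_mem hv, ?_⟩
            rw [inv_pow]
            exact P'.inv_mem hv' }
      have hR : R = P := by
        apply hm R
        · rintro a ha u ⟨hu, hu'⟩
          refine ⟨hst a ha u hu, ?_⟩
          rw [← map_pow]
          exact hPs a ha _ hu'
        · obtain ⟨v, hv, hv'⟩ := SetLike.exists_of_lt hPP
          have hex : ∃ k, v ^ (ℓ ^ k) ∈ P' := by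
            obtain ⟨k, hk⟩ := hp v
            exact ⟨k, by rw [hk]; exact P'.one_mem⟩
          classical
          obtain ⟨k, hk, hk'⟩ : ∃ k, v ^ (ℓ ^ k) ∈ P' ∧ ∀ m < k, v ^ (ℓ ^ m) ∉ P' :=
            ⟨Nat.find hex, Nat.find_spec hex, fun m hm => Nat.find_min hex hm⟩
          obtain ⟨j, rfl⟩ : ∃ j, k = j + 1 := by
            rcases k with _ | j
            · rw [pow_zero, pow_one] at hk
              exact absurd hk hv'
            · exact ⟨j, rfl⟩
          apply SetLike.lt_iff_le_and_exists.2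
          refine ⟨fun x hx => ⟨hPP.le hx, P'.pow_mem hx _⟩, v ^ (ℓ ^ j), ⟨P.pow_mem hv _, ?_⟩,
            hk' j (Nat.lt_succ_self j)⟩
          rw [← pow_mul, ← pow_succ]
          exact hk
        · exact fun x hx => hx.1
      intro v hv
      rw [← hR] at hv
      exact hv.2
    · intro a ha v hv hv1 hv2 w hw
      let R : Subgroup V :=
        { carrier := {v | v ∈ P ∧ a v * v⁻¹ ∈ P'}
          mul_mem' := by
            rintro v w ⟨hv, hv'⟩ ⟨hw, hw'⟩
            refine ⟨P.mul_mem hv hw, ?_⟩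
            have h6 : a (v * w) * (v * w)⁻¹ = (a v * v⁻¹) * (a w * w⁻¹) := by
              rw [map_mul, mul_inv]
              exact mul_mul_mul_comm _ _ _ _
            rw [h6]
            exact P'.mul_mem hv' hw'
          one_mem' := ⟨P.one_mem, by rw [map_one, inv_one, mul_one]; exact P'.one_mem⟩
          inv_mem' := by
            rintro v ⟨hv, hv'⟩
            refine ⟨P.inv_mem hv, ?_⟩
            have h6 : a v⁻¹ * v⁻¹⁻¹ = (a v * v⁻¹)⁻¹ := by
              rw [map_inv, ← mul_inv]
            rw [h6]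
            exact P'.inv_mem hv' }
      have hR : R = P := by
        apply hm R
        · rintro b hb u ⟨hu, hu'⟩
          refine ⟨hst b hb u hu, ?_⟩
          have h6 : a (b u) * (b u)⁻¹ = (a (b u) * (b (a u))⁻¹) * b (a u * u⁻¹) := by
            rw [map_mul, map_inv]
            group
          rw [h6]
          exact P'.mul_mem (hP0 (hcm a ha b hb u)) (hPs b hb _ hu')
        · apply SetLike.lt_iff_le_and_exists.2
          refine ⟨fun x hx => ⟨hPP.le hx, P'.mul_mem (hPs a ha x hx) (P'.inv_mem hx)⟩, v,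
            ⟨hv, hv2⟩, hv1⟩
        · exact fun x hx => hx.1
      rw [← hR] at hw
      exact hw.2
    · intro a ha b hb v _
      exact hP0 (hcm a ha b hb v)
    · exact hreg P' hP0 hPs
  exact key _ ⊤ rfl le_top (fun a _ u _ => Subgroup.mem_top _)

end Pool.Agent.PST.GU.H62
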